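import Mathlib

open Filter Topology Finset
open scoped NNReal

namespace Pool.Agent.Results.MP_54d8ad_lc.SimpleDensity

/-- The weights allowed in the definition of Erdos-Ulam ideals. -/
structure IsEUWeight (h : ℕ → ℝ) : Prop where
  nonneg : ∀ i, 0 ≤ h i
  sum_tendsto : Tendsto (fun n : ℕ => ∑ i ∈ range n, h i) atTop atTop
  ratio_tendsto : Tendsto (fun n : ℕ => h n / ∑ i ∈ range (n + 1), h i) atTop (𝓝 0)

/-- The Erdos-Ulam ideal `EU_h`. -/
def erdosUlam (h : ℕ → ℝ) : Set (Set ℕ) :=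
  {A | Tendsto (fun n : ℕ => (∑ i ∈ range n, A.indicator h i) / ∑ i ∈ range n, h i)
    atTop (𝓝 0)}

/-- The class `H`. -/
structure IsH (g : ℕ → ℕ) : Prop where
  mono : Monotone g
  tendsto : Tendsto g atTop atTop
  ratio : ¬ Tendsto (fun n : ℕ => (n : ℝ) / (g n : ℝ)) atTop (𝓝 0)

/-- The simple density ideal `Z_g`. -/
def simpleDensity (g : ℕ → ℕ) : Set (Set ℕ) :=
  {A | Tendsto (fun n : ℕ => ((A ∩ Set.Iio n).ncard : ℝ) / (g n : ℝ)) atTop (𝓝 0)}

/-- Modulus functions (increasing is read as nondecreasing). -/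
structure IsModulus (f : ℝ≥0 → ℝ≥0) : Prop where
  eq_zero_iff : ∀ x, f x = 0 ↔ x = 0
  subadd : ∀ x y, f (x + y) ≤ f x + f y
  mono : Monotone f
  cont : ContinuousAt f 0

/-- The ideal `Z_g(f)`. -/
def modulusDensity (g : ℕ → ℕ) (f : ℝ≥0 → ℝ≥0) : Set (Set ℕ) :=
  {A | Tendsto (fun n : ℕ => (f ((A ∩ Set.Iio n).ncard : ℝ≥0) : ℝ) / (f (g n : ℝ≥0) : ℝ))
    atTop (𝓝 0)}

/-! ### counting function and mass -/

/-- `|A ∩ n|` -/
noncomputable def cnt (A : Set ℕ) (n : ℕ) : ℕ := (A ∩ Set.Iio n).ncard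

theorem cnt_mono_right (A : Set ℕ) {m n : ℕ} (h : m ≤ n) : cnt A m ≤ cnt A n := by
  unfold cnt
  refine Set.ncard_le_ncard ?_ ((Set.finite_Iio n).subset Set.inter_subset_right)
  exact Set.inter_subset_inter_right _ (Set.Iio_subset_Iio h)

theorem cnt_le (A : Set ℕ) (n : ℕ) : cnt A n ≤ n := by
  unfold cnt
  calc (A ∩ Set.Iio n).ncard ≤ (Set.Iio n).ncard :=
        Set.ncard_le_ncard Set.inter_subset_right (Set.finite_Iio n)
    _ = n := by
        rw [← Finset.coe_Iio, Set.ncard_coe_finset]; simp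

theorem cnt_univ (n : ℕ) : cnt Set.univ n = n := by
  unfold cnt
  rw [Set.univ_inter, ← Finset.coe_Iio, Set.ncard_coe_finset]; simp

theorem cnt_le_of_subset {A B : Set ℕ} (n : ℕ) (h : A ∩ Set.Iio n ⊆ B) : cnt A n ≤ cnt B n := by
  unfold cnt
  refine Set.ncard_le_ncard ?_ ((Set.finite_Iio n).subset Set.inter_subset_right)
  exact Set.subset_inter h Set.inter_subset_right

theorem cnt_le_diff (A : Set ℕ) (m n : ℕ) : cnt A n ≤ cnt (A \ Set.Iio m) n + m := by
  unfold cnt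
  have h1 : A ∩ Set.Iio n ⊆ ((A \ Set.Iio m) ∩ Set.Iio n) ∪ Set.Iio m := by
    intro x hx
    by_cases hxm : x < m
    · right; exact hxm
    · left; exact ⟨⟨hx.1, hxm⟩, hx.2⟩
  have hfin : (((A \ Set.Iio m) ∩ Set.Iio n) ∪ Set.Iio m).Finite :=
    ((Set.finite_Iio n).subset Set.inter_subset_right).union (Set.finite_Iio m)
  calc (A ∩ Set.Iio n).ncard ≤ (((A \ Set.Iio m) ∩ Set.Iio n) ∪ Set.Iio m).ncard :=
        Set.ncard_le_ncard h1 hfin
    _ ≤ ((A \ Set.Iio m) ∩ Set.Iio n).ncard + (Set.Iio m).ncard := Set.ncard_union_le _ _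
    _ = ((A \ Set.Iio m) ∩ Set.Iio n).ncard + m := by
        congr 1
        rw [← Finset.coe_Iio, Set.ncard_coe_finset]; simp

/-- total mass below `n` -/
noncomputable def tot (h : ℕ → ℝ) (n : ℕ) : ℝ := ∑ i ∈ range n, h i

/-- mass of `A` below `n` -/
noncomputable def mass (h : ℕ → ℝ) (A : Set ℕ) (n : ℕ) : ℝ := ∑ i ∈ range n, A.indicator h i

section
variable {h : ℕ → ℝ} (hh : IsEUWeight h)
include hh

theorem tot_mono : Monotone (tot h) := by
  intro m n hmn
  unfold tot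
  exact Finset.sum_le_sum_of_subset_of_nonneg (by simpa using hmn) (fun i _ _ => hh.nonneg i)

theorem tot_nonneg (n : ℕ) : 0 ≤ tot h n := Finset.sum_nonneg (fun i _ => hh.nonneg i)

theorem mass_nonneg (A : Set ℕ) (n : ℕ) : 0 ≤ mass h A n :=
  Finset.sum_nonneg (fun i _ => Set.indicator_nonneg (fun i _ => hh.nonneg i) i)

theorem mass_le_tot (A : Set ℕ) (n : ℕ) : mass h A n ≤ tot h n :=
  Finset.sum_le_sum (fun i _ => Set.indicator_le_self' (fun i _ => hh.nonneg i) i)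

/-- splitting off a block on which `A` and `B` agree -/
theorem mass_split (A B : Set ℕ) {m n : ℕ} (hmn : m ≤ n)
    (hAB : ∀ i, m ≤ i → i < n → (i ∈ A ↔ i ∈ B)) :
    mass h A n ≤ mass h A m + mass h B n := by
  unfold mass
  rw [← Finset.sum_range_add_sum_Ico _ hmn]
  have h1 : ∑ i ∈ Finset.Ico m n, A.indicator h i = ∑ i ∈ Finset.Ico m n, B.indicator h i := by
    apply Finset.sum_congr rfl
    intro i hi
    rw [Finset.mem_Ico] at hi
    by_cases hA : i ∈ A
    · rw [Set.indicator_of_mem hA, Set.indicator_of_mem ((hAB i hi.1 hi.2).1 hA)]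
    · rw [Set.indicator_of_notMem hA,
        Set.indicator_of_notMem (fun hB => hA ((hAB i hi.1 hi.2).2 hB))]
  have h2 : ∑ i ∈ Finset.Ico m n, B.indicator h i ≤ ∑ i ∈ range n, B.indicator h i := by
    rw [← Finset.sum_range_add_sum_Ico (fun i => B.indicator h i) hmn]
    have : 0 ≤ ∑ i ∈ range m, B.indicator h i :=
      Finset.sum_nonneg (fun i _ => Set.indicator_nonneg (fun i _ => hh.nonneg i) i)
    linarith
  linarith

end

/-! ### gluing -/

/-- the glued set -/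
def glue (A : ℕ → Set ℕ) (M : ℕ → ℕ) : Set ℕ := {i | ∃ k, M k ≤ i ∧ i < M (k + 1) ∧ i ∈ A k}

theorem mem_glue_iff (A : ℕ → Set ℕ) {M : ℕ → ℕ} (hM : StrictMono M) (k i : ℕ)
    (h1 : M k ≤ i) (h2 : i < M (k + 1)) : i ∈ glue A M ↔ i ∈ A k := by
  constructor
  · rintro ⟨j, hj1, hj2, hj3⟩
    have : j = k := by
      by_contra hne
      rcases lt_or_gt_of_ne hne with hlt | hgt
      · have : M (j + 1) ≤ M k := hM.monotone (by omega)
        omega
      · have : M (k + 1) ≤ M j := hM.monotone (by omega)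
        omega
    rw [← this]; exact hj3
  · intro h
    exact ⟨k, h1, h2, h⟩

theorem exists_block {M : ℕ → ℕ} (hM : StrictMono M) (h0 : M 0 = 0) (n : ℕ) :
    ∃ k, M k ≤ n ∧ n < M (k + 1) := by
  induction n with
  | zero =>
    refine ⟨0, by omega, ?_⟩
    have := hM (Nat.zero_lt_one)
    simp only [zero_add]; omega
  | succ n ih =>
    obtain ⟨k, hk1, hk2⟩ := ih
    by_cases hlt : n + 1 < M (k + 1)
    · exact ⟨k, by omega, hlt⟩
    · have hlt2 := hM (Nat.lt_succ_self (k + 1))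
      exact ⟨k + 1, by omega, by
        have : M (k + 1) < M (k + 1 + 1) := hlt2
        omega⟩

section
variable {f : ℝ≥0 → ℝ≥0} (hf : IsModulus f)
include hf

theorem f_nat_mul (k : ℕ) (x : ℝ≥0) : f ((k : ℝ≥0) * x) ≤ k * f x := by
  induction k with
  | zero => simp [(hf.eq_zero_iff 0).2 rfl]
  | succ k ih =>
    have h1 : ((k + 1 : ℕ) : ℝ≥0) * x = (k : ℝ≥0) * x + x := by push_cast; ring
    rw [h1]
    calc f ((k : ℝ≥0) * x + x) ≤ f ((k : ℝ≥0) * x) + f x := hf.subadd _ _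
      _ ≤ k * f x + f x := by gcongr
      _ = ((k + 1 : ℕ) : ℝ≥0) * f x := by push_cast; ring

theorem f_pos {x : ℝ≥0} (hx : x ≠ 0) : 0 < f x :=
  pos_iff_ne_zero.2 (fun h => hx ((hf.eq_zero_iff x).1 h))

theorem f_tendsto (hunb : ¬ BddAbove (Set.range f)) {g : ℕ → ℕ} (hg : Tendsto g atTop atTop) :
    Tendsto (fun n : ℕ => (f (g n : ℝ≥0) : ℝ)) atTop atTop := by
  rw [tendsto_atTop]
  intro b
  have : ∃ x, b ≤ (f x : ℝ) := by
    by_contra hcon
    push Not at hcon
    apply hunb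
    refine ⟨b.toNNReal, ?_⟩
    rintro _ ⟨x, rfl⟩
    have h1 := hcon x
    rw [← NNReal.coe_le_coe]
    exact h1.le.trans (Real.le_coe_toNNReal b)
  obtain ⟨x, hx⟩ := this
  obtain ⟨N, hN⟩ := exists_nat_ge x
  filter_upwards [hg.eventually_ge_atTop N] with n hn
  refine hx.trans ?_
  rw [NNReal.coe_le_coe]
  apply hf.mono
  exact hN.trans (by exact_mod_cast hn)

end

/-- Uniformity: if the two ideals agree then asymptotically small mass implies small value. -/
theorem stepU {h : ℕ → ℝ} (hh : IsEUWeight h) {g : ℕ → ℕ} (hg : Tendsto g atTop atTop)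
    {f : ℝ≥0 → ℝ≥0} (hf : IsModulus f) (hunb : ¬ BddAbove (Set.range f))
    (heq : erdosUlam h = modulusDensity g f) (ε : ℝ) (hε : 0 < ε) :
    ∃ δ : ℝ, 0 < δ ∧ ∀ A : Set ℕ, (∀ᶠ n in atTop, mass h A n ≤ δ * tot h n) →
      ∀ᶠ n in atTop, (f (cnt A n : ℝ≥0) : ℝ) ≤ ε * f (g n : ℝ≥0) := by
  by_contra hcon
  push Not at hcon
  have hδ : ∀ k : ℕ, (0 : ℝ) < 1 / ((k : ℝ) + 1) := fun k => by positivity
  choose A hA1 hA2 using fun k : ℕ => hcon (1 / ((k : ℝ) + 1)) (hδ k)
  have hft := f_tendsto hf hunb hg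
  have hHt : Tendsto (tot h) atTop atTop := hh.sum_tendsto
  -- one step
  have hstep : ∀ k m : ℕ, ∃ m' : ℕ, m < m' ∧
      (∃ n, m < n ∧ n ≤ m' ∧ 0 < (f (g n : ℝ≥0) : ℝ) ∧
        ε / 2 * f (g n : ℝ≥0) < f (cnt (A k \ Set.Iio m) n : ℝ≥0)) ∧
      (∀ n ≥ m', mass h (A k) n ≤ 1 / ((k : ℝ) + 1) * tot h n) ∧
      (∀ n ≥ m', mass h (A (k + 1)) n ≤ 1 / (((k + 1 : ℕ) : ℝ) + 1) * tot h n) ∧
      tot h m ≤ 1 / ((k : ℝ) + 1) * tot h m' := by
    intro k m
    obtain ⟨a, ha⟩ := eventually_atTop.1 (hA1 k)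
    obtain ⟨b, hb⟩ := eventually_atTop.1 (hA1 (k + 1))
    obtain ⟨d, hd⟩ := eventually_atTop.1
      (hHt.eventually_ge_atTop (((k : ℝ) + 1) * tot h m))
    have he : ∀ᶠ n in atTop, (f (m : ℝ≥0) : ℝ) ≤ ε / 2 * f (g n : ℝ≥0) := by
      filter_upwards [hft.eventually_ge_atTop ((f (m : ℝ≥0) : ℝ) * (2 / ε))] with n hn
      have : ε / 2 * ((f (m : ℝ≥0) : ℝ) * (2 / ε)) = f (m : ℝ≥0) := by field_simp
      calc (f (m : ℝ≥0) : ℝ) = ε / 2 * ((f (m : ℝ≥0) : ℝ) * (2 / ε)) := this.symm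
        _ ≤ _ := by gcongr
    obtain ⟨n, hn1, hn2, hn3, hn4⟩ := ((hA2 k).and_eventually
      (he.and ((eventually_gt_atTop m).and (hft.eventually_gt_atTop 0)))).exists
    refine ⟨max (max n a) (max b d), ?_, ⟨n, hn3, ?_, hn4, ?_⟩, ?_, ?_, ?_⟩
    · have : n ≤ max (max n a) (max b d) := le_trans (le_max_left _ _) (le_max_left _ _)
      omega
    · exact le_trans (le_max_left _ _) (le_max_left _ _)
    · have h1 : f (cnt (A k) n : ℝ≥0) ≤ f (cnt (A k \ Set.Iio m) n : ℝ≥0) + f (m : ℝ≥0) := by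
        calc f (cnt (A k) n : ℝ≥0) ≤ f ((cnt (A k \ Set.Iio m) n : ℝ≥0) + (m : ℝ≥0)) := by
              apply hf.mono
              exact_mod_cast cnt_le_diff (A k) m n
          _ ≤ _ := hf.subadd _ _
      have h2 : (f (cnt (A k) n : ℝ≥0) : ℝ) ≤ f (cnt (A k \ Set.Iio m) n : ℝ≥0) + f (m : ℝ≥0) := by
        exact_mod_cast h1
      linarith
    · intro n' hn'
      exact ha n' (le_trans (le_trans (le_max_right _ _) (le_max_left _ _)) hn')
    · intro n' hn'
      exact hb n' (le_trans (le_trans (le_max_left _ _) (le_max_right _ _)) hn')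
    · have := hd (max (max n a) (max b d)) (le_trans (le_max_right _ _) (le_max_right _ _))
      rw [one_div, ← div_eq_inv_mul, le_div_iff₀ (by positivity)]
      linarith
  choose nx hnx1 hnx2 hnx3 hnx4 hnx5 using hstep
  let M : ℕ → ℕ := fun k => Nat.rec 0 (fun k m => nx k m) k
  have hM0 : M 0 = 0 := rfl
  have hMs : ∀ k, M (k + 1) = nx k (M k) := fun k => rfl
  have hM : StrictMono M := strictMono_nat_of_lt_succ (fun k => by rw [hMs]; exact hnx1 k (M k))
  let B := glue A M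
  have hclaim1 : ∀ k, mass h B (M (k + 1)) ≤ 2 / ((k : ℝ) + 1) * tot h (M (k + 1)) := by
    intro k
    have h1 := mass_split hh B (A k) (hM.monotone (Nat.le_succ k))
      (fun i hi1 hi2 => mem_glue_iff A hM k i hi1 hi2)
    have h2 := mass_le_tot hh B (M k)
    have h3 := hnx5 k (M k)
    have h4 := hnx3 k (M k) (M (k + 1)) (by rw [hMs])
    rw [← hMs] at h3
    have h5 : 2 / ((k : ℝ) + 1) * tot h (M (k + 1)) =
      1 / ((k : ℝ) + 1) * tot h (M (k + 1)) + 1 / ((k : ℝ) + 1) * tot h (M (k + 1)) := by ring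
    rw [h5]
    have h1' : mass h B (M (k + 1)) ≤ mass h B (M k) + mass h (A k) (M (k + 1)) := h1
    linarith
  have hclaim2 : ∀ k n, M (k + 1) ≤ n → n < M (k + 2) →
      mass h B n ≤ 3 / ((k : ℝ) + 1) * tot h n := by
    intro k n hn1 hn2
    have h1 : mass h B n ≤ mass h B (M (k + 1)) + mass h (A (k + 1)) n :=
      mass_split hh B (A (k + 1)) hn1
      (fun i hi1 hi2 => mem_glue_iff A hM (k + 1) i hi1 (lt_trans hi2 hn2))
    have h2 := hclaim1 k
    have h3 := hnx4 k (M k) n (by rw [← hMs]; exact hn1)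
    have h4 := tot_mono hh hn1
    have h6 : 0 ≤ tot h n := tot_nonneg hh n
    have h7 : 2 / ((k : ℝ) + 1) * tot h (M (k + 1)) ≤ 2 / ((k : ℝ) + 1) * tot h n := by gcongr
    have h8 : 1 / (((k + 1 : ℕ) : ℝ) + 1) * tot h n ≤ 1 / ((k : ℝ) + 1) * tot h n := by
      gcongr
      push_cast; linarith
    have h5 : 3 / ((k : ℝ) + 1) * tot h n =
      2 / ((k : ℝ) + 1) * tot h n + 1 / ((k : ℝ) + 1) * tot h n := by ring
    rw [h5]
    linarith
  have hB1 : B ∈ erdosUlam h := by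
    show Tendsto (fun n : ℕ => mass h B n / tot h n) atTop (𝓝 0)
    rw [Metric.tendsto_atTop]
    intro e he
    obtain ⟨k0, hk0⟩ := exists_nat_gt (3 / e)
    obtain ⟨n1, hn1⟩ := eventually_atTop.1 (hHt.eventually_gt_atTop 0)
    refine ⟨max (M (k0 + 1)) n1, fun n hn => ?_⟩
    have hpos : 0 < tot h n := hn1 n (le_trans (le_max_right _ _) hn)
    have hge : M (k0 + 1) ≤ n := le_trans (le_max_left _ _) hn
    obtain ⟨k, hk1, hk2⟩ := exists_block hM hM0 n
    have hkk : k0 + 1 ≤ k := by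
      by_contra hlt
      have hle : k + 1 ≤ k0 + 1 := by omega
      have h9 : M (k + 1) ≤ M (k0 + 1) := hM.monotone hle
      omega
    obtain ⟨j, rfl⟩ : ∃ j, k = j + 1 := ⟨k - 1, by omega⟩
    have h1 := hclaim2 j n hk1 hk2
    rw [Real.dist_eq, sub_zero, abs_of_nonneg (div_nonneg (mass_nonneg hh B n) hpos.le),
      div_lt_iff₀ hpos]
    refine lt_of_le_of_lt h1 ?_
    have h2 : 3 / ((j : ℝ) + 1) < e := by
      rw [div_lt_iff₀ (by positivity)]
      rw [div_lt_iff₀ he] at hk0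
      have : (k0 : ℝ) ≤ j := by exact_mod_cast (by omega : k0 ≤ j)
      nlinarith
    exact mul_lt_mul_of_pos_right h2 hpos
  have hB2 : B ∉ modulusDensity g f := by
    intro hB
    have hB' : Tendsto (fun n : ℕ => (f (cnt B n : ℝ≥0) : ℝ) / (f (g n : ℝ≥0) : ℝ))
      atTop (𝓝 0) := hB
    obtain ⟨n0, hn0⟩ := eventually_atTop.1 (hB'.eventually (gt_mem_nhds (half_pos hε)))
    obtain ⟨n, hn1, hn2, hn3, hn4⟩ := hnx2 n0 (M n0)
    have h0 : n0 ≤ M n0 := hM.id_le n0
    have h1 := hn0 n (by omega)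
    rw [div_lt_iff₀ hn3] at h1
    have h2 : cnt (A n0 \ Set.Iio (M n0)) n ≤ cnt B n := by
      apply cnt_le_of_subset
      intro i hi
      have hi1 : M n0 ≤ i := not_lt.1 hi.1.2
      have hi2 : i < M (n0 + 1) := lt_of_lt_of_le hi.2 hn2
      exact (mem_glue_iff A hM n0 i hi1 hi2).2 hi.1.1
    have h3 : f (cnt (A n0 \ Set.Iio (M n0)) n : ℝ≥0) ≤ f (cnt B n : ℝ≥0) := by
      apply hf.mono
      exact_mod_cast h2
    have h4 : (f (cnt (A n0 \ Set.Iio (M n0)) n : ℝ≥0) : ℝ) ≤ f (cnt B n : ℝ≥0) := by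
      exact_mod_cast h3
    linarith
  exact hB2 (heq ▸ hB1)

/-! ### greedy colouring -/

/-- an index with least value -/
noncomputable def argmin {N : ℕ} (v : Fin (N + 1) → ℝ) : Fin (N + 1) :=
  Classical.choose (Finite.exists_min v)

theorem argmin_spec {N : ℕ} (v : Fin (N + 1) → ℝ) (i : Fin (N + 1)) : v (argmin v) ≤ v i :=
  Classical.choose_spec (Finite.exists_min v) i

/-- the vector of masses of the greedy colouring -/
noncomputable def vec (h : ℕ → ℝ) (N : ℕ) : ℕ → (Fin (N + 1) → ℝ)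
  | 0 => fun _ => 0
  | (n + 1) => fun i => vec h N n i + (if i = argmin (vec h N n) then h n else 0)

/-- the colour classes -/
def cls (h : ℕ → ℝ) (N : ℕ) (i : Fin (N + 1)) : Set ℕ := {n | i = argmin (vec h N n)}

theorem vec_eq_mass (h : ℕ → ℝ) (N : ℕ) (i : Fin (N + 1)) (n : ℕ) :
    vec h N n i = mass h (cls h N i) n := by
  induction n with
  | zero => simp [vec, mass]
  | succ n ih =>
    have h1 : mass h (cls h N i) (n + 1) = mass h (cls h N i) n + (cls h N i).indicator h n := by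
      unfold mass
      rw [Finset.sum_range_succ]
    rw [h1, ← ih]
    simp only [vec]
    congr 1
    by_cases hi : i = argmin (vec h N n)
    · rw [if_pos hi, Set.indicator_of_mem (show n ∈ cls h N i from hi)]
    · rw [if_neg hi, Set.indicator_of_notMem (show n ∉ cls h N i from hi)]

theorem vec_sum (h : ℕ → ℝ) (N : ℕ) (n : ℕ) : ∑ i, vec h N n i = tot h n := by
  induction n with
  | zero => simp [vec, tot]
  | succ n ih =>
    simp only [vec]
    rw [Finset.sum_add_distrib, ih]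
    unfold tot
    rw [Finset.sum_range_succ]
    simp

theorem vec_argmin_le (h : ℕ → ℝ) (N : ℕ) (n : ℕ) :
    ((N : ℝ) + 1) * vec h N n (argmin (vec h N n)) ≤ tot h n := by
  rw [← vec_sum h N n]
  have := Finset.card_nsmul_le_sum (Finset.univ : Finset (Fin (N + 1))) (vec h N n)
    (vec h N n (argmin (vec h N n))) (fun i _ => argmin_spec _ i)
  rw [Finset.card_univ, Fintype.card_fin, nsmul_eq_mul] at this
  push_cast at this
  exact this

theorem greedy {h : ℕ → ℝ} (hh : IsEUWeight h) (N : ℕ) (i : Fin (N + 1)) :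
    ∀ᶠ n in atTop, mass h (cls h N i) n ≤ 3 / ((N : ℝ) + 1) * tot h n := by
  have hpos : (0 : ℝ) < 1 / ((N : ℝ) + 1) := by positivity
  have hHt : Tendsto (tot h) atTop atTop := hh.sum_tendsto
  obtain ⟨n0, hn0⟩ := eventually_atTop.1
    ((hh.ratio_tendsto.eventually (gt_mem_nhds hpos)).and
      ((tendsto_add_atTop_nat 1).eventually (hHt.eventually_gt_atTop 0)))
  have hb : ∀ n, vec h N n i ≤ 2 / ((N : ℝ) + 1) * tot h n + tot h n0 := by
    intro n
    induction n with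
    | zero =>
      have := tot_nonneg hh n0
      simp only [vec]
      have h2 : tot h 0 = 0 := by simp [tot]
      rw [h2]; linarith
    | succ n ih =>
      have hmono := tot_mono hh (Nat.le_succ n)
      have h0 := tot_nonneg hh n0
      have hn00 := tot_nonneg hh (n + 1)
      by_cases hn : n < n0
      · have h1 : vec h N (n + 1) i ≤ tot h (n + 1) := by
          rw [vec_eq_mass]; exact mass_le_tot hh _ _
        have h2 : tot h (n + 1) ≤ tot h n0 := tot_mono hh hn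
        have h3 : 0 ≤ 2 / ((N : ℝ) + 1) * tot h (n + 1) := by positivity
        linarith
      · simp only [vec]
        split_ifs with hi
        · have h1 := vec_argmin_le h N n
          rw [← hi] at h1
          obtain ⟨h2, h3⟩ := hn0 n (by omega)
          have h4 : h n < 1 / ((N : ℝ) + 1) * tot h (n + 1) := by
            have h3' : 0 < ∑ i ∈ range (n + 1), h i := h3
            rw [div_lt_iff₀ h3'] at h2
            exact h2
          have h5 : vec h N n i ≤ 1 / ((N : ℝ) + 1) * tot h n := by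
            rw [one_div, ← div_eq_inv_mul, le_div_iff₀ (by positivity)]
            linarith
          have h6 : 1 / ((N : ℝ) + 1) * tot h n ≤ 1 / ((N : ℝ) + 1) * tot h (n + 1) := by gcongr
          have h7 : 2 / ((N : ℝ) + 1) * tot h (n + 1) =
            1 / ((N : ℝ) + 1) * tot h (n + 1) + 1 / ((N : ℝ) + 1) * tot h (n + 1) := by ring
          rw [h7]
          linarith
        · have h6 : 2 / ((N : ℝ) + 1) * tot h n ≤ 2 / ((N : ℝ) + 1) * tot h (n + 1) := by gcongr
          linarith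
  filter_upwards [hHt.eventually_ge_atTop (((N : ℝ) + 1) * tot h n0)] with n hn
  rw [← vec_eq_mass]
  have h1 := hb n
  have h2 : tot h n0 ≤ 1 / ((N : ℝ) + 1) * tot h n := by
    rw [one_div, ← div_eq_inv_mul, le_div_iff₀ (by positivity)]
    linarith
  have h7 : 3 / ((N : ℝ) + 1) * tot h n =
    2 / ((N : ℝ) + 1) * tot h n + 1 / ((N : ℝ) + 1) * tot h n := by ring
  rw [h7]; linarith

theorem exists_big_class (h : ℕ → ℝ) (N n : ℕ) :
    ∃ i : Fin (N + 1), n ≤ (N + 1) * cnt (cls h N i) n := by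
  by_contra hcon
  push Not at hcon
  have h1 : n ≤ ∑ i : Fin (N + 1), cnt (cls h N i) n := by
    classical
    have h2 : (Finset.range n) ⊆ Finset.univ.biUnion
        (fun i : Fin (N + 1) => (Finset.range n).filter (fun j => j ∈ cls h N i)) := by
      intro j hj
      rw [Finset.mem_biUnion]
      exact ⟨argmin (vec h N j), Finset.mem_univ _, Finset.mem_filter.2 ⟨hj, rfl⟩⟩
    have h3 := (Finset.card_le_card h2).trans Finset.card_biUnion_le
    rw [Finset.card_range] at h3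
    refine h3.trans (Finset.sum_le_sum (fun i _ => ?_))
    unfold cnt
    rw [← Set.ncard_coe_finset]
    apply le_of_eq
    congr 1
    ext x
    simp [and_comm]
  have h2 : (N + 1) * ∑ i : Fin (N + 1), cnt (cls h N i) n < (N + 1) * n := by
    rw [Finset.mul_sum]
    calc ∑ i : Fin (N + 1), (N + 1) * cnt (cls h N i) n < ∑ i : Fin (N + 1), n :=
          Finset.sum_lt_sum_of_nonempty (by simp) (fun i _ => hcon i)
      _ = (N + 1) * n := by simp
  have h3 := Nat.mul_le_mul_left (N + 1) h1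
  omega

/-- Step 3. -/
theorem step3 {h : ℕ → ℝ} (hh : IsEUWeight h) {g : ℕ → ℕ} (hg : Tendsto g atTop atTop)
    {f : ℝ≥0 → ℝ≥0} (hf : IsModulus f) (hunb : ¬ BddAbove (Set.range f))
    (heq : erdosUlam h = modulusDensity g f) (ε : ℝ) (hε : 0 < ε) :
    ∃ N : ℕ, ∀ᶠ n : ℕ in atTop, (f ((n : ℝ≥0) / ((N : ℝ≥0) + 1)) : ℝ) ≤ ε * f (g n : ℝ≥0) := by
  obtain ⟨δ, hδ, hU⟩ := stepU hh hg hf hunb heq ε hε
  obtain ⟨N, hN⟩ := exists_nat_gt (3 / δ)
  refine ⟨N, ?_⟩
  have h1 : ∀ i : Fin (N + 1), ∀ᶠ n in atTop,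
      (f (cnt (cls h N i) n : ℝ≥0) : ℝ) ≤ ε * f (g n : ℝ≥0) := by
    intro i
    apply hU
    filter_upwards [greedy hh N i] with n hn
    refine hn.trans ?_
    have h2 : 3 / ((N : ℝ) + 1) ≤ δ := by
      rw [div_le_iff₀ (by positivity)]
      rw [div_lt_iff₀ hδ] at hN
      nlinarith
    exact mul_le_mul_of_nonneg_right h2 (tot_nonneg hh n)
  filter_upwards [eventually_all.2 h1] with n hn
  obtain ⟨i, hi⟩ := exists_big_class h N n
  refine le_trans ?_ (hn i)
  rw [NNReal.coe_le_coe]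
  apply hf.mono
  rw [div_le_iff₀ (by positivity)]
  have : (n : ℝ≥0) ≤ (((N + 1) * cnt (cls h N i) n : ℕ) : ℝ≥0) := by exact_mod_cast hi
  refine this.trans (le_of_eq ?_)
  push_cast; ring

/-- Step 4: the ideal in terms of `r(n) = f(n)/f(g n)`. -/
theorem step4 {h : ℕ → ℝ} (hh : IsEUWeight h) {g : ℕ → ℕ} (hg : Tendsto g atTop atTop)
    {f : ℝ≥0 → ℝ≥0} (hf : IsModulus f) (hunb : ¬ BddAbove (Set.range f))
    (heq : erdosUlam h = modulusDensity g f) (A : Set ℕ) :
    A ∈ erdosUlam h ↔ ∀ ε : ℝ, 0 < ε → ∀ᶠ n : ℕ in atTop,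
      ((f (n : ℝ≥0) : ℝ) / f (g n : ℝ≥0)) * cnt A n ≤ ε * n := by
  have hft := f_tendsto hf hunb hg
  have hmem : A ∈ erdosUlam h ↔ Tendsto (fun n : ℕ => (f (cnt A n : ℝ≥0) : ℝ) /
    (f (g n : ℝ≥0) : ℝ)) atTop (𝓝 0) := by
    rw [heq]; rfl
  rw [hmem]
  constructor
  · intro hA ε hε
    filter_upwards [hA.eventually (gt_mem_nhds (half_pos hε)), hft.eventually_gt_atTop 0]
      with n hn hpos
    rcases Nat.eq_zero_or_pos (cnt A n) with hc | hc
    · rw [hc]; simp; positivity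
    · set c := cnt A n with hcdef
      have hcn : c ≤ n := cnt_le A n
      have h1 : (f (n : ℝ≥0) : ℝ) ≤ ((n / c + 1 : ℕ) : ℝ) * f (c : ℝ≥0) := by
        have h2 : f (n : ℝ≥0) ≤ ((n / c + 1 : ℕ) : ℝ≥0) * f (c : ℝ≥0) := by
          refine le_trans ?_ (f_nat_mul hf (n / c + 1) (c : ℝ≥0))
          apply hf.mono
          have : n ≤ (n / c + 1) * c := by
            have := Nat.lt_div_mul_add (a := n) hc
            nlinarith
          exact_mod_cast this
        exact_mod_cast h2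
      have h3 : ((n / c + 1 : ℕ) : ℝ) * c ≤ 2 * n := by
        have : (n / c + 1) * c ≤ 2 * n := by
          have := Nat.div_mul_le_self n c
          nlinarith
        exact_mod_cast this
      rw [div_lt_iff₀ hpos] at hn
      rw [div_mul_eq_mul_div, div_le_iff₀ hpos]
      have hc0 : (0 : ℝ) ≤ c := Nat.cast_nonneg c
      have hfc : (0 : ℝ) ≤ f (c : ℝ≥0) := NNReal.coe_nonneg _
      have hn0 : (0 : ℝ) ≤ n := Nat.cast_nonneg n
      calc (f (n : ℝ≥0) : ℝ) * c ≤ (((n / c + 1 : ℕ) : ℝ) * f (c : ℝ≥0)) * c := by gcongr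
        _ = (((n / c + 1 : ℕ) : ℝ) * c) * f (c : ℝ≥0) := by ring
        _ ≤ (2 * n) * f (c : ℝ≥0) := by gcongr
        _ ≤ (2 * n) * (ε / 2 * f (g n : ℝ≥0)) := by gcongr
        _ = ε * n * f (g n : ℝ≥0) := by ring
  · intro hA
    rw [Metric.tendsto_atTop]
    intro e he
    obtain ⟨N, hN⟩ := step3 hh hg hf hunb heq (e / 2) (half_pos he)
    have hη : 0 < (e / 2) / ((N : ℝ) + 1) := by positivity
    have hev := hN.and ((hA _ hη).and ((hft.eventually_gt_atTop 0).and (eventually_gt_atTop 0)))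
    obtain ⟨n0, hn0⟩ := eventually_atTop.1 hev
    refine ⟨n0, fun n hn => ?_⟩
    obtain ⟨h1, h2, h3, h4⟩ := hn0 n hn
    rw [Real.dist_eq, sub_zero, abs_of_nonneg (by positivity), div_lt_iff₀ h3]
    have hn0 : (0 : ℝ) < n := by exact_mod_cast h4
    have key : (f (cnt A n : ℝ≥0) : ℝ) ≤ e / 2 * f (g n : ℝ≥0) := by
      by_cases hc : (cnt A n : ℝ≥0) ≤ (n : ℝ≥0) / ((N : ℝ≥0) + 1)
      · refine le_trans ?_ h1
        rw [NNReal.coe_le_coe]
        exact hf.mono hc
      · rw [not_le, div_lt_iff₀ (by positivity)] at hc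
        have hc' : (n : ℝ) < cnt A n * ((N : ℝ) + 1) := by exact_mod_cast hc
        have h5 : (f (n : ℝ≥0) : ℝ) / f (g n : ℝ≥0) ≤ e / 2 := by
          have hr : 0 ≤ (f (n : ℝ≥0) : ℝ) / f (g n : ℝ≥0) := by positivity
          have h6 : ((f (n : ℝ≥0) : ℝ) / f (g n : ℝ≥0)) * n ≤
              ((f (n : ℝ≥0) : ℝ) / f (g n : ℝ≥0)) * (cnt A n * ((N : ℝ) + 1)) := by gcongr
          have h7 : ((f (n : ℝ≥0) : ℝ) / f (g n : ℝ≥0)) * (cnt A n * ((N : ℝ) + 1)) ≤
              e / 2 * n := by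
            calc ((f (n : ℝ≥0) : ℝ) / f (g n : ℝ≥0)) * (cnt A n * ((N : ℝ) + 1))
                = (((f (n : ℝ≥0) : ℝ) / f (g n : ℝ≥0)) * cnt A n) * ((N : ℝ) + 1) := by ring
              _ ≤ ((e / 2) / ((N : ℝ) + 1) * n) * ((N : ℝ) + 1) := by gcongr
              _ = e / 2 * n := by field_simp
          exact le_of_mul_le_mul_right (h6.trans h7) hn0
        rw [div_le_iff₀ h3] at h5
        refine le_trans ?_ h5
        rw [NNReal.coe_le_coe]
        apply hf.mono
        exact_mod_cast cnt_le A n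
    nlinarith

theorem univ_notMem {h : ℕ → ℝ} (hh : IsEUWeight h) : Set.univ ∉ erdosUlam h := by
  intro hu
  have hHt : Tendsto (tot h) atTop atTop := hh.sum_tendsto
  have hu' : Tendsto (fun n : ℕ => (∑ i ∈ range n, (Set.univ : Set ℕ).indicator h i) /
    ∑ i ∈ range n, h i) atTop (𝓝 0) := hu
  have h1 : Tendsto (fun n : ℕ => (∑ i ∈ range n, (Set.univ : Set ℕ).indicator h i) /
    ∑ i ∈ range n, h i) atTop (𝓝 1) := by
    apply tendsto_const_nhds.congr'
    filter_upwards [hHt.eventually_gt_atTop 0] with n hn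
    have hn' : 0 < ∑ i ∈ range n, h i := hn
    simp only [Set.indicator_univ]
    rw [div_self hn'.ne']
  exact zero_ne_one (tendsto_nhds_unique hu' h1)

/-- Every Erdos-Ulam ideal of the form `Z_g(f)` is a simple density ideal. -/
theorem result (h : ℕ → ℝ) (hh : IsEUWeight h) (g : ℕ → ℕ) (hg : IsH g)
    (f : ℝ≥0 → ℝ≥0) (hf : IsModulus f) (hunb : ¬ BddAbove (Set.range f))
    (heq : erdosUlam h = modulusDensity g f) :
    ∃ g' : ℕ → ℕ, IsH g' ∧ erdosUlam h = simpleDensity g' := by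
  classical
  have hft := f_tendsto hf hunb hg.tendsto
  set r : ℕ → ℝ := fun n => (f (n : ℝ≥0) : ℝ) / f (g n : ℝ≥0) with hr
  have hmem : ∀ A : Set ℕ, A ∈ erdosUlam h ↔ ∀ ε : ℝ, 0 < ε → ∀ᶠ n : ℕ in atTop,
      r n * cnt A n ≤ ε * n := fun A => step4 hh hg.tendsto hf hunb heq A
  have hr0 : ∀ n, 0 ≤ r n := fun n => by simp only [hr]; positivity
  -- `r` is eventually positive and bounded
  obtain ⟨N, hN⟩ := step3 hh hg.tendsto hf hunb heq 1 one_pos
  have hrb : ∀ᶠ n : ℕ in atTop, 0 < r n ∧ r n ≤ (N : ℝ) + 1 := by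
    filter_upwards [hN, hft.eventually_gt_atTop 0, eventually_gt_atTop 0] with n h1 h2 h3
    constructor
    · simp only [hr]
      apply div_pos _ h2
      have : (n : ℝ≥0) ≠ 0 := by exact_mod_cast h3.ne'
      exact_mod_cast f_pos hf this
    · simp only [hr]
      rw [div_le_iff₀ h2]
      have h4 : f (n : ℝ≥0) ≤ ((N + 1 : ℕ) : ℝ≥0) * f ((n : ℝ≥0) / ((N : ℝ≥0) + 1)) := by
        refine le_trans (le_of_eq ?_) (f_nat_mul hf (N + 1) ((n : ℝ≥0) / ((N : ℝ≥0) + 1)))
        congr 1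
        push_cast
        field_simp
      have h5 : (f (n : ℝ≥0) : ℝ) ≤ ((N + 1 : ℕ) : ℝ) * f ((n : ℝ≥0) / ((N : ℝ≥0) + 1)) := by
        exact_mod_cast h4
      rw [one_mul] at h1
      push_cast at h5
      refine h5.trans ?_
      gcongr
  obtain ⟨n1, hn1⟩ := eventually_atTop.1 hrb
  -- existence
  have hex : ∀ n : ℕ, ∃ q : ℕ, ∃ m : ℕ, n ≤ m ∧ n1 ≤ m ∧ (m : ℝ) ≤ q * r m := by
    intro n
    have hpos := (hn1 (max n n1) (le_max_right _ _)).1
    obtain ⟨q, hq⟩ := exists_nat_ge (((max n n1 : ℕ) : ℝ) / r (max n n1))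
    refine ⟨q, max n n1, le_max_left _ _, le_max_right _ _, ?_⟩
    rwa [div_le_iff₀ hpos] at hq
  let g' : ℕ → ℕ := fun n => Nat.find (hex n)
  have hg'spec : ∀ n, ∃ m : ℕ, n ≤ m ∧ n1 ≤ m ∧ (m : ℝ) ≤ g' n * r m := fun n =>
    Nat.find_spec (hex n)
  have hg'min : ∀ n q : ℕ, q < g' n → ∀ m, n ≤ m → n1 ≤ m → (q : ℝ) * r m < m := by
    intro n q hq m hm hm1
    have := Nat.find_min (hex n) hq
    push Not at this
    exact this m hm hm1
  have hmono : Monotone g' := by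
    intro a b hab
    by_contra hlt
    rw [not_le] at hlt
    obtain ⟨m, hm1, hm2, hm3⟩ := hg'spec b
    have := hg'min a (g' b) hlt m (le_trans hab hm1) hm2
    linarith
  have htend : Tendsto g' atTop atTop := by
    rw [tendsto_atTop]
    intro q
    obtain ⟨n2, hn2⟩ := exists_nat_gt ((q : ℝ) * ((N : ℝ) + 1))
    filter_upwards [eventually_ge_atTop n2] with n hn
    by_contra hlt
    rw [not_le] at hlt
    obtain ⟨m, hm1, hm2, hm3⟩ := hg'spec n
    have h1 : (g' n : ℝ) ≤ q := by exact_mod_cast hlt.le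
    have h2 := (hn1 m hm2).2
    have h2' := (hn1 m hm2).1
    have h3 : (n2 : ℝ) ≤ m := by exact_mod_cast le_trans hn hm1
    have h4 : (g' n : ℝ) * r m ≤ q * ((N : ℝ) + 1) := by gcongr
    linarith
  have hiff : ∀ A : Set ℕ, A ∈ erdosUlam h ↔ A ∈ simpleDensity g' := by
    intro A
    rw [hmem A]
    have hS : A ∈ simpleDensity g' ↔ Tendsto (fun n : ℕ => (cnt A n : ℝ) / (g' n : ℝ))
      atTop (𝓝 0) := Iff.rfl
    rw [hS]
    have hg'pos : ∀ᶠ n in atTop, 0 < g' n := htend.eventually_gt_atTop 0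
    constructor
    · intro hA
      rw [Metric.tendsto_atTop]
      intro e he
      obtain ⟨n3, hn3⟩ := eventually_atTop.1 ((hA (e / 2) (half_pos he)).and hg'pos)
      refine ⟨n3, fun n hn => ?_⟩
      have hgp : (0 : ℝ) < g' n := by exact_mod_cast (hn3 n hn).2
      rw [Real.dist_eq, sub_zero, abs_of_nonneg (by positivity), div_lt_iff₀ hgp]
      obtain ⟨m, hm1, hm2, hm3⟩ := hg'spec n
      have h1 := (hn3 m (le_trans hn hm1)).1
      have h2 := (hn1 m hm2).1
      have h3 : (cnt A n : ℝ) ≤ cnt A m := by exact_mod_cast cnt_mono_right A hm1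
      have h4 : r m * cnt A n ≤ r m * (e / 2 * g' n) := by
        calc r m * cnt A n ≤ r m * cnt A m := by gcongr
          _ ≤ e / 2 * m := h1
          _ ≤ e / 2 * (g' n * r m) := by gcongr
          _ = r m * (e / 2 * g' n) := by ring
      have h5 := le_of_mul_le_mul_left h4 h2
      nlinarith
    · intro hA ε hε
      filter_upwards [hA.eventually (gt_mem_nhds (half_pos hε)), hg'pos, eventually_ge_atTop n1,
        eventually_ge_atTop (N + 1)] with n h1 h2 h3 h4
      have hgp : (0 : ℝ) < g' n := by exact_mod_cast h2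
      rw [div_lt_iff₀ hgp] at h1
      have h5 := hg'min n (g' n - 1) (by omega) n le_rfl h3
      rw [Nat.cast_sub (by omega : 1 ≤ g' n)] at h5
      have h6 := (hn1 n h3).2
      have h7 : ((N : ℝ) + 1) ≤ n := by exact_mod_cast h4
      have h8 : r n * g' n ≤ 2 * n := by
        push_cast at h5
        nlinarith
      calc r n * cnt A n ≤ r n * (ε / 2 * g' n) :=
            mul_le_mul_of_nonneg_left h1.le (hr0 n)
        _ = ε / 2 * (r n * g' n) := by ring
        _ ≤ ε / 2 * (2 * n) := by gcongr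
        _ = ε * n := by ring
  refine ⟨g', ⟨hmono, htend, ?_⟩, Set.ext hiff⟩
  intro hcon
  apply univ_notMem hh
  rw [hiff]
  show Tendsto (fun n : ℕ => (cnt Set.univ n : ℝ) / (g' n : ℝ)) atTop (𝓝 0)
  simpa only [cnt_univ] using hcon

end Pool.Agent.Results.MP_54d8ad_lc.SimpleDensity
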